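import Mathlib

set_option autoImplicit false

namespace Pool.Agent.H499R3.Hopf

variable {S : Type} [Semigroup S] (T : Subsemigroup S)

def RR (x y : S) : Prop :=
  insert x ((fun t => x * t) '' (T : Set S)) = insert y ((fun t => y * t) '' (T : Set S))
def LL (x y : S) : Prop :=
  insert x ((fun t => t * x) '' (T : Set S)) = insert y ((fun t => t * y) '' (T : Set S))

def cls (x : S) : Set S := {y : S | RR T x y ∧ LL T x y}

theorem RR_iff (x y : S) :
    RR T x y ↔ (x = y ∨ ((∃ t ∈ T, y = x * t) ∧ ∃ t ∈ T, x = y * t)) := by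
  constructor
  · intro h
    have h1 : y ∈ insert x ((fun t => x * t) '' (T : Set S)) := by
      unfold RR at h; rw [h]; exact Set.mem_insert _ _
    have h2 : x ∈ insert y ((fun t => y * t) '' (T : Set S)) := by
      unfold RR at h; rw [← h]; exact Set.mem_insert _ _
    rcases h1 with h1 | ⟨t, ht, h1⟩
    · left; exact h1.symm
    rcases h2 with h2 | ⟨s, hs, h2⟩
    · left; exact h2
    right
    exact ⟨⟨t, ht, h1.symm⟩, ⟨s, hs, h2.symm⟩⟩
  · rintro (rfl | ⟨⟨t, ht, h1⟩, ⟨s, hs, h2⟩⟩)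
    · rfl
    · unfold RR
      ext z
      constructor
      · rintro (rfl | ⟨w, hw, rfl⟩)
        · right; exact ⟨s, hs, h2.symm⟩
        · right; refine ⟨s * w, T.mul_mem hs hw, ?_⟩
          show y * (s * w) = x * w
          rw [← mul_assoc, ← h2]
      · rintro (rfl | ⟨w, hw, rfl⟩)
        · right; exact ⟨t, ht, h1.symm⟩
        · right; refine ⟨t * w, T.mul_mem ht hw, ?_⟩
          show x * (t * w) = y * w
          rw [← mul_assoc, ← h1]

theorem LL_iff (x y : S) :
    LL T x y ↔ (x = y ∨ ((∃ t ∈ T, y = t * x) ∧ ∃ t ∈ T, x = t * y)) := by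
  constructor
  · intro h
    have h1 : y ∈ insert x ((fun t => t * x) '' (T : Set S)) := by
      unfold LL at h; rw [h]; exact Set.mem_insert _ _
    have h2 : x ∈ insert y ((fun t => t * y) '' (T : Set S)) := by
      unfold LL at h; rw [← h]; exact Set.mem_insert _ _
    rcases h1 with h1 | ⟨t, ht, h1⟩
    · left; exact h1.symm
    rcases h2 with h2 | ⟨s, hs, h2⟩
    · left; exact h2
    right
    exact ⟨⟨t, ht, h1.symm⟩, ⟨s, hs, h2.symm⟩⟩
  · rintro (rfl | ⟨⟨t, ht, h1⟩, ⟨s, hs, h2⟩⟩)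
    · rfl
    · unfold LL
      ext z
      constructor
      · rintro (rfl | ⟨w, hw, rfl⟩)
        · right; exact ⟨s, hs, h2.symm⟩
        · right; refine ⟨w * s, T.mul_mem hw hs, ?_⟩
          show w * s * y = w * x
          rw [mul_assoc, ← h2]
      · rintro (rfl | ⟨w, hw, rfl⟩)
        · right; exact ⟨t, ht, h1.symm⟩
        · right; refine ⟨w * t, T.mul_mem hw ht, ?_⟩
          show w * t * x = w * y
          rw [mul_assoc, ← h1]

theorem RR_refl (x : S) : RR T x x := rfl
theorem LL_refl (x : S) : LL T x x := rfl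
theorem RR_symm {x y : S} (h : RR T x y) : RR T y x := h.symm
theorem LL_symm {x y : S} (h : LL T x y) : LL T y x := h.symm
theorem RR_trans {x y z : S} (h : RR T x y) (h' : RR T y z) : RR T x z := h.trans h'
theorem LL_trans {x y z : S} (h : LL T x y) (h' : LL T y z) : LL T x z := h.trans h'

/-- L is a right congruence. -/
theorem LL_mul_right {x y : S} (h : LL T x y) (s : S) : LL T (x * s) (y * s) := by
  rw [LL_iff] at h ⊢
  rcases h with rfl | ⟨⟨t, ht, h1⟩, ⟨u, hu, h2⟩⟩
  · left; rfl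
  · right
    refine ⟨⟨t, ht, ?_⟩, ⟨u, hu, ?_⟩⟩
    · rw [← mul_assoc, ← h1]
    · rw [← mul_assoc, ← h2]

theorem RR_mul_left {x y : S} (h : RR T x y) (s : S) : RR T (s * x) (s * y) := by
  rw [RR_iff] at h ⊢
  rcases h with rfl | ⟨⟨t, ht, h1⟩, ⟨u, hu, h2⟩⟩
  · left; rfl
  · right
    refine ⟨⟨t, ht, ?_⟩, ⟨u, hu, ?_⟩⟩
    · rw [mul_assoc, ← h1]
    · rw [mul_assoc, ← h2]

theorem RR_mem {x y : S} (h : RR T x y) (hx : x ∈ T) : y ∈ T := by
  rw [RR_iff] at h
  rcases h with rfl | ⟨⟨t, ht, h1⟩, _⟩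
  · exact hx
  · rw [h1]; exact T.mul_mem hx ht

theorem LL_mem {x y : S} (h : LL T x y) (hx : x ∈ T) : y ∈ T := by
  rw [LL_iff] at h
  rcases h with rfl | ⟨⟨t, ht, h1⟩, _⟩
  · exact hx
  · rw [h1]; exact T.mul_mem ht hx

theorem cls_eq_iff {x y : S} : cls T x = cls T y ↔ y ∈ cls T x := by
  constructor
  · intro h; rw [h]; exact ⟨rfl, rfl⟩
  · rintro ⟨h1, h2⟩
    ext z
    constructor
    · rintro ⟨h3, h4⟩
      exact ⟨RR_trans T (RR_symm T h1) h3, LL_trans T (LL_symm T h2) h4⟩
    · rintro ⟨h3, h4⟩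
      exact ⟨RR_trans T h1 h3, LL_trans T h2 h4⟩

theorem cls_self (x : S) : x ∈ cls T x := ⟨rfl, rfl⟩

/-- The set of classes outside `T`. -/
def Classes : Set (Set S) := {C : Set S | ∃ x : S, x ∉ T ∧ C = cls T x}

theorem not_mem_of_mem_cls {x y : S} (hx : x ∉ T) (h : y ∈ cls T x) : y ∉ T := by
  intro hy; exact hx (RR_mem T (RR_symm T h.1) hy)

/-- derivative of `T` at an element of `S^1`. -/
def D (x : WithOne S) : Set (WithOne S) := {s | ∃ t ∈ T, x * s = (t : WithOne S)}

theorem D_coe_eq_of_LL {x y : S} (h : LL T x y) : D T (x : WithOne S) = D T (y : WithOne S) := by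
  have key : ∀ {x y : S}, LL T x y → D T (x : WithOne S) ⊆ D T (y : WithOne S) := by
    intro x y h s hs
    obtain ⟨t, ht, h1⟩ := hs
    rw [LL_iff] at h
    rcases h with rfl | ⟨⟨u, hu, h2⟩, _⟩
    · exact ⟨t, ht, h1⟩
    · refine ⟨u * t, T.mul_mem hu ht, ?_⟩
      rw [h2, WithOne.coe_mul, mul_assoc, h1, WithOne.coe_mul]
  exact Set.Subset.antisymm (key h) (key (LL_symm T h))

theorem D_coe_mem_of_RR {x : S} {s s' : S} (h : RR T s s')
    (hs : (s : WithOne S) ∈ D T (x : WithOne S)) : (s' : WithOne S) ∈ D T (x : WithOne S) := by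
  obtain ⟨t, ht, h1⟩ := hs
  rw [RR_iff] at h
  rcases h with rfl | ⟨⟨u, hu, h2⟩, _⟩
  · exact ⟨t, ht, h1⟩
  · refine ⟨t * u, T.mul_mem ht hu, ?_⟩
    rw [h2, WithOne.coe_mul, ← mul_assoc, h1, WithOne.coe_mul]

theorem finite_range_D (hfin : (Classes T).Finite) : (Set.range (D T)).Finite := by
  -- three families
  have h1 : (Set.range (D T)) ⊆ {D T 1} ∪
      ((fun C : Set S => {s : WithOne S | ∃ y ∈ C, s ∈ D T (y : WithOne S)}) '' Classes T) ∪
      ((fun (CC : Set (Set S)) => ({s : WithOne S | s = 1 ∨ ∃ t ∈ T, s = (t : WithOne S)} ∪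
        {s : WithOne S | ∃ C ∈ CC, ∃ y ∈ C, s = (y : WithOne S)})) '' (𝒫 (Classes T))) := by
    rintro _ ⟨x, rfl⟩
    induction x using WithOne.recOneCoe with
    | one => left; left; rfl
    | coe x =>
      by_cases hx : x ∈ T
      · right
        refine ⟨{C | C ∈ Classes T ∧ ∃ s ∈ C, (s : WithOne S) ∈ D T (x : WithOne S)}, ?_, ?_⟩
        · intro C hC; exact hC.1
        · ext s
          constructor
          · rintro (hs | hs)
            · rcases hs with rfl | ⟨t, ht, rfl⟩
              · exact ⟨x, hx, by simp⟩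
              · exact ⟨x * t, T.mul_mem hx ht, by simp⟩
            · obtain ⟨C, ⟨⟨c, hc, rfl⟩, s', hs', hD⟩, y, hy, rfl⟩ := hs
              exact D_coe_mem_of_RR T (RR_trans T (RR_symm T hs'.1) hy.1) hD
          · intro hs
            induction s using WithOne.recOneCoe with
            | one => left; left; rfl
            | coe s =>
              by_cases hsT : s ∈ T
              · left; right; exact ⟨s, hsT, rfl⟩
              · right
                exact ⟨cls T s, ⟨⟨s, hsT, rfl⟩, s, cls_self T s, hs⟩, s, cls_self T s, rfl⟩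
      · left; right
        refine ⟨cls T x, ⟨x, hx, rfl⟩, ?_⟩
        ext s
        constructor
        · rintro ⟨y, hy, hs⟩
          rw [D_coe_eq_of_LL T hy.2]; exact hs
        · intro hs
          exact ⟨x, cls_self T x, hs⟩
  refine Set.Finite.subset ?_ h1
  refine Set.Finite.union (Set.Finite.union (Set.finite_singleton _) (hfin.image _)) ?_
  exact (hfin.finite_subsets).image _

/-- action on subsets of `S^1`. -/
def actSet (a : S) (X : Set (WithOne S)) : Set (WithOne S) := {s | (a : WithOne S) * s ∈ X}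

theorem actSet_D (a : S) (x : WithOne S) : actSet a (D T x) = D T (x * a) := by
  ext s
  simp only [actSet, D, Set.mem_ofPred_eq, mul_assoc]

/-- the map to the (opposite) transformation monoid of the range of `D`. -/
noncomputable def piMap : S →ₙ* (Function.End (Set.range (D T)))ᵐᵒᵖ where
  toFun a := MulOpposite.op (fun X => ⟨actSet a X.1, by
    obtain ⟨_, x, rfl⟩ := X
    exact ⟨x * a, (actSet_D T a x).symm⟩⟩)
  map_mul' a b := by
    apply MulOpposite.unop_injective
    funext X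
    apply Subtype.ext
    ext s
    show (((a * b : S) : WithOne S) * s ∈ X.1) ↔ ((a : WithOne S) * ((b : WithOne S) * s) ∈ X.1)
    rw [WithOne.coe_mul, mul_assoc]

theorem mem_iff_piMap (a : S) :
    a ∈ T ↔ (1 : WithOne S) ∈ (((piMap T a).unop : Set.range (D T) → Set.range (D T)) ⟨D T 1, 1, rfl⟩).1 := by
  show a ∈ T ↔ (1 : WithOne S) ∈ actSet a (D T 1)
  simp only [actSet, D, Set.mem_ofPred_eq, mul_one, one_mul]
  constructor
  · intro h; exact ⟨a, h, rfl⟩
  · rintro ⟨t, ht, h⟩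
    rw [WithOne.coe_inj] at h
    rw [h]; exact ht

/-- iterate of an endomorphism. -/
def it (φ : S →ₙ* S) : ℕ → (S →ₙ* S)
  | 0 => MulHom.id S
  | (k+1) => φ.comp (it φ k)

theorem it_apply (φ : S →ₙ* S) (k : ℕ) (x : S) : it φ k x = φ^[k] x := by
  induction k generalizing x with
  | zero => rfl
  | succ k ih =>
    rw [Function.iterate_succ_apply']
    show φ (it φ k x) = _
    rw [ih]

theorem it_surj (φ : S →ₙ* S) (hφ : Function.Surjective φ) (k : ℕ) : Function.Surjective (it φ k) := by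
  intro y
  obtain ⟨x, hx⟩ := hφ.iterate k y
  exact ⟨x, by rw [it_apply]; exact hx⟩

theorem exists_iterate_preimage (A : Set S) (hA : A.Finite) (hAgen : Subsemigroup.closure A = ⊤)
    (hfin : (Classes T).Finite) (φ : S →ₙ* S) (hφ : Function.Surjective φ) :
    ∃ m : ℕ, 0 < m ∧ ∀ x, (it φ m x ∈ T ↔ x ∈ T) := by
  have : Finite (Set.range (D T)) := (finite_range_D T hfin).to_subtype
  have : Finite A := hA.to_subtype
  have : Finite ((Function.End (Set.range (D T)))ᵐᵒᵖ) := by
    have : Finite (Function.End (Set.range (D T))) :=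
      inferInstanceAs (Finite (Set.range (D T) → Set.range (D T)))
    exact Finite.of_equiv _ MulOpposite.opEquiv
  let F := (Function.End (Set.range (D T)))ᵐᵒᵖ
  have : Finite (S →ₙ* F) := by
    apply Finite.of_injective (fun f : S →ₙ* F => fun a : A => f a)
    intro f g hfg
    apply MulHom.eq_of_eqOn_dense hAgen
    intro a ha
    exact congrFun hfg ⟨a, ha⟩
  obtain ⟨i, j, hij, heq⟩ := Finite.exists_ne_map_eq_of_infinite
    (fun k : ℕ => ((piMap T).comp (it φ k) : S →ₙ* F))
  have key : ∀ i j : ℕ, i < j → ((piMap T).comp (it φ i) : S →ₙ* F) = (piMap T).comp (it φ j) →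
      ∃ m : ℕ, 0 < m ∧ ∀ x, (it φ m x ∈ T ↔ x ∈ T) := by
    intro i j hij heq
    refine ⟨j - i, by omega, ?_⟩
    intro x
    obtain ⟨y, rfl⟩ := it_surj φ hφ i x
    have h1 : piMap T (it φ i y) = piMap T (it φ j y) := DFunLike.congr_fun heq y
    have h2 : it φ (j - i) (it φ i y) = it φ j y := by
      rw [it_apply, it_apply, it_apply, ← Function.iterate_add_apply]
      congr 2
      omega
    rw [h2, mem_iff_piMap T (it φ j y), mem_iff_piMap T (it φ i y), h1]
  rcases lt_or_gt_of_ne hij with h | h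
  · exact key i j h heq
  · exact key j i h heq.symm

theorem exists_gens (hfg : ∃ F : Finset S, Subsemigroup.closure (↑F : Set S) = T)
    (hfin : (Classes T).Finite) :
    ∃ A : Set S, A.Finite ∧ Subsemigroup.closure A = ⊤ := by
  classical
  by_cases hne : Nonempty S
  swap
  · refine ⟨∅, Set.finite_empty, ?_⟩
    rw [eq_top_iff]
    intro x _
    exact absurd ⟨x⟩ hne
  obtain ⟨F, hF⟩ := hfg
  have hch : ∀ C ∈ Classes T, ∃ b, b ∈ C := by
    rintro _ ⟨x, hx, rfl⟩; exact ⟨x, cls_self T x⟩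
  choose! g hg using hch
  refine ⟨(F : Set S) ∪ g '' Classes T, F.finite_toSet.union (hfin.image _), ?_⟩
  rw [eq_top_iff]
  have hT : T ≤ Subsemigroup.closure ((F : Set S) ∪ g '' Classes T) := by
    rw [← hF]; exact Subsemigroup.closure_mono Set.subset_union_left
  intro x _
  by_cases hx : x ∈ T
  · exact hT hx
  · have hC : cls T x ∈ Classes T := ⟨x, hx, rfl⟩
    have h1 := hg _ hC
    have h2 : g (cls T x) ∈ Subsemigroup.closure ((F : Set S) ∪ g '' Classes T) :=
      Subsemigroup.subset_closure (Or.inr ⟨_, hC, rfl⟩)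
    have h3 := h1.1
    rw [RR_iff] at h3
    rcases h3 with h3 | ⟨_, t, ht, h3⟩
    · rw [h3]; exact h2
    · rw [h3]; exact Subsemigroup.mul_mem _ h2 (hT ht)

/-- Green type lemma. -/
theorem green {x s : S} (hs : s ∈ T) (h : x * s ∈ cls T x) {C : Set S}
    (hC : C = cls T x) : (fun h => h * s) '' C = C := by
  subst hC
  have hRR := h.1
  rw [RR_iff] at hRR
  -- element s' with x * s * s' = x  (or x * s = x)
  have hs' : ∃ s' : S, s' ∈ T ∧ x * s * s' = x := by
    rcases hRR with h0 | ⟨_, s', hs', h0⟩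
    · exact ⟨s, hs, by rw [← h0, ← h0]⟩
    · exact ⟨s', hs', h0.symm⟩
  obtain ⟨s', hs'T, hss'⟩ := hs'
  have key : ∀ y ∈ cls T x, y * s * s' = y := by
    intro y hy
    have h2 := hy.2
    rw [LL_iff] at h2
    rcases h2 with rfl | ⟨⟨t, ht, h2⟩, _⟩
    · exact hss'
    · rw [h2, mul_assoc, mul_assoc, ← mul_assoc x, hss']
  have hin : ∀ y ∈ cls T x, y * s ∈ cls T x := by
    intro y hy
    constructor
    · refine RR_trans T hy.1 ?_
      rw [RR_iff]
      right
      exact ⟨⟨s, hs, rfl⟩, ⟨s', hs'T, (key y hy).symm⟩⟩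
    · exact LL_trans T h.2 (LL_mul_right T hy.2 s)
  have hin' : ∀ y ∈ cls T x, y * s' ∈ cls T x := by
    intro y hy
    -- y L x*s so y*s' L x*s*s' = x
    have h1 : LL T (y * s') (x * s * s') := LL_mul_right T (LL_trans T (LL_symm T hy.2) h.2) s'
    rw [hss'] at h1
    have h2 : y * s' * s = y := by
      have h3 : LL T (x * s) y := LL_trans T (LL_symm T h.2) hy.2
      rw [LL_iff] at h3
      rcases h3 with h3 | ⟨⟨t, ht, h3⟩, _⟩
      · rw [← h3, hss']
      · rw [h3, mul_assoc, mul_assoc, ← mul_assoc (x * s), hss']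
    refine ⟨?_, LL_symm T h1⟩
    refine RR_trans T hy.1 ?_
    rw [RR_iff]
    right
    exact ⟨⟨s', hs'T, rfl⟩, ⟨s, hs, h2.symm⟩⟩
  have h2' : ∀ y ∈ cls T x, y * s' * s = y := by
    intro y hy
    have h3 : LL T (x * s) y := LL_trans T (LL_symm T h.2) hy.2
    rw [LL_iff] at h3
    rcases h3 with h3 | ⟨⟨t, ht, h3⟩, _⟩
    · rw [← h3, hss']
    · rw [h3, mul_assoc, mul_assoc, ← mul_assoc (x * s), hss']
  apply Set.Subset.antisymm
  · rintro _ ⟨y, hy, rfl⟩; exact hin y hy
  · intro y hy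
    exact ⟨y * s', hin' y hy, h2' y hy⟩

/-- If `θ` is onto and `θ⁻¹(T) = T`, then `θ` respects the relations. -/
theorem RR_map (θ : S →ₙ* S) (hT : ∀ x, (θ x ∈ T ↔ x ∈ T)) {x y : S} (h : RR T x y) :
    RR T (θ x) (θ y) := by
  rw [RR_iff] at h ⊢
  rcases h with rfl | ⟨⟨t, ht, h1⟩, ⟨u, hu, h2⟩⟩
  · left; rfl
  · right
    exact ⟨⟨θ t, (hT t).2 ht, by rw [h1, map_mul]⟩, ⟨θ u, (hT u).2 hu, by
      conv_lhs => rw [h2]
      rw [map_mul]⟩⟩

theorem LL_map (θ : S →ₙ* S) (hT : ∀ x, (θ x ∈ T ↔ x ∈ T)) {x y : S} (h : LL T x y) :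
    LL T (θ x) (θ y) := by
  rw [LL_iff] at h ⊢
  rcases h with rfl | ⟨⟨t, ht, h1⟩, ⟨u, hu, h2⟩⟩
  · left; rfl
  · right
    exact ⟨⟨θ t, (hT t).2 ht, by rw [h1, map_mul]⟩, ⟨θ u, (hT u).2 hu, by
      conv_lhs => rw [h2]
      rw [map_mul]⟩⟩

theorem cls_map (θ : S →ₙ* S) (hT : ∀ x, (θ x ∈ T ↔ x ∈ T)) {x y : S} (h : y ∈ cls T x) :
    θ y ∈ cls T (θ x) := ⟨RR_map T θ hT h.1, LL_map T θ hT h.2⟩

/-- a suitable power fixes every class outside `T`. -/
theorem exists_power_fix (hfin : (Classes T).Finite) (θ : S →ₙ* S) (hθ : Function.Surjective θ)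
    (hT : ∀ x, (θ x ∈ T ↔ x ∈ T)) :
    ∃ r : ℕ, 0 < r ∧ ∀ x, x ∉ T → θ^[r] x ∈ cls T x := by
  classical
  let st : Setoid {x : S // x ∉ T} :=
    { r := fun x y => y.1 ∈ cls T x.1
      iseqv := ⟨fun x => cls_self T x.1, fun {x y} h => ⟨RR_symm T h.1, LL_symm T h.2⟩,
        fun {x y z} h h' => ⟨RR_trans T h.1 h'.1, LL_trans T h.2 h'.2⟩⟩ }
  have : Finite (Quotient st) := by
    have : Finite (Classes T) := hfin.to_subtype
    apply Finite.of_injective (fun q : Quotient st =>
      (Quotient.liftOn q (fun x => (⟨cls T x.1, x.1, x.2, rfl⟩ : Classes T)) (by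
        intro a b hab
        apply Subtype.ext
        exact (cls_eq_iff T).2 hab)))
    intro p q
    induction p using Quotient.inductionOn with
    | h a =>
      induction q using Quotient.inductionOn with
      | h b =>
        intro h
        apply Quotient.sound
        have := congrArg Subtype.val h
        exact (cls_eq_iff T).1 this
  let c : Quotient st → Quotient st := Quotient.map (fun x => (⟨θ x.1, fun h => x.2 ((hT _).1 h)⟩ : {x : S // x ∉ T}))
    (by intro a b hab; exact cls_map T θ hT hab)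
  have hc : Function.Surjective c := by
    intro q
    induction q using Quotient.inductionOn with
    | h b =>
      obtain ⟨b, hb⟩ := b
      obtain ⟨a, rfl⟩ := hθ b
      exact ⟨Quotient.mk st ⟨a, fun h => hb ((hT _).2 h)⟩, rfl⟩
  have hbij : Function.Bijective c := ⟨Finite.injective_iff_surjective.2 hc, hc⟩
  let e : Equiv.Perm (Quotient st) := Equiv.ofBijective c hbij
  obtain ⟨r, hr, her⟩ := (isOfFinOrder_of_finite e).exists_pow_eq_one
  refine ⟨r, hr, ?_⟩
  intro x hx
  have h1 : ∀ k : ℕ, ∀ x (hx : x ∉ T), ∃ h : θ^[k] x ∉ T, (e ^ k) (Quotient.mk st ⟨x, hx⟩) = Quotient.mk st ⟨θ^[k] x, h⟩ := by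
    intro k
    induction k with
    | zero => intro x hx; exact ⟨hx, rfl⟩
    | succ k ih =>
      intro x hx
      obtain ⟨h, h'⟩ := ih (θ x) (fun h => hx ((hT _).1 h))
      refine ⟨h, ?_⟩
      rw [pow_succ, Equiv.Perm.mul_apply]
      exact h'
  obtain ⟨h, h'⟩ := h1 r x hx
  rw [her, Equiv.Perm.one_apply] at h'
  exact Quotient.exact h'

/-- The stabilizer monoid. -/
abbrev Stab (H : Set S) : Submonoid (WithOne S) :=
  Submonoid.closure {u : WithOne S | u = 1 ∨
                ∃ t ∈ T, u = (t : WithOne S) ∧ (fun h => h * t) '' H = H}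

theorem mem_Stab {H : Set S} {u : WithOne S} (hu : u ∈ Stab T H) :
    u = 1 ∨ ∃ t ∈ T, u = (t : WithOne S) ∧ (fun h => h * t) '' H = H := by
  induction hu using Submonoid.closure_induction with
  | mem x hx => exact hx
  | one => left; rfl
  | mul x y _ _ hx hy =>
    rcases hx with rfl | ⟨t, ht, rfl, htH⟩
    · rw [one_mul]; exact hy
    · rcases hy with rfl | ⟨s, hs, rfl, hsH⟩
      · rw [mul_one]; right; exact ⟨t, ht, rfl, htH⟩
      · right
        refine ⟨t * s, T.mul_mem ht hs, WithOne.coe_mul _ _, ?_⟩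
        have : (fun h => h * (t * s)) '' H = (fun h => h * s) '' ((fun h => h * t) '' H) := by
          rw [Set.image_image]
          congr 1
          funext h
          rw [mul_assoc]
        rw [this, htH, hsH]

theorem Stab_act {H : Set S} {u : WithOne S} (hu : u ∈ Stab T H) {h : S} (hh : h ∈ H) :
    ∃ h' ∈ H, (h : WithOne S) * u = (h' : WithOne S) := by
  rcases mem_Stab T hu with rfl | ⟨t, ht, rfl, htH⟩
  · exact ⟨h, hh, mul_one _⟩
  · refine ⟨h * t, ?_, (WithOne.coe_mul _ _).symm⟩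
    rw [← htH]; exact ⟨h, hh, rfl⟩

/-- the Schützenberger relation. -/
abbrev sig (H : Set S) : ↥(Stab T H) → ↥(Stab T H) → Prop :=
  fun a b => ∀ h ∈ H, (h : WithOne S) * (a : WithOne S) = (h : WithOne S) * (b : WithOne S)

def sigCon (H : Set S) : Con ↥(Stab T H) where
  r := sig T H
  iseqv := ⟨fun a h _ => rfl, fun {a b} hab h hh => (hab h hh).symm,
    fun {a b c} hab hbc h hh => (hab h hh).trans (hbc h hh)⟩
  mul' := by
    intro a b c d hab hcd h hh
    show (h : WithOne S) * ((a : WithOne S) * (c : WithOne S)) = (h : WithOne S) * ((b : WithOne S) * (d : WithOne S))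
    rw [← mul_assoc, ← mul_assoc, hab h hh]
    obtain ⟨h', hh', he⟩ := Stab_act T b.2 hh
    rw [he]
    exact hcd h' hh'

theorem conGen_sig (H : Set S) (a b : ↥(Stab T H)) : conGen (sig T H) a b ↔ sig T H a b := by
  constructor
  · intro h
    have : conGen (sig T H) ≤ sigCon T H := Con.conGen_le.2 (fun a b hab => hab)
    exact this h
  · intro h
    exact ConGen.Rel.of _ _ h

/-- extension of `Θ` to `S^1`. -/
noncomputable def ext1 (Θ : S →ₙ* S) : WithOne S →* WithOne S := WithOne.mapMulHom Θ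

theorem ext1_coe (Θ : S →ₙ* S) (x : S) : ext1 Θ (x : WithOne S) = ((Θ x : S) : WithOne S) := rfl

theorem inj_on_class (Θ : S →ₙ* S) (hΘ : Function.Surjective Θ) (hT : ∀ x, (Θ x ∈ T ↔ x ∈ T))
    (hfix : ∀ x, x ∉ T → Θ x ∈ cls T x) {x0 : S} (hx0 : x0 ∉ T)
    (hop : ∀ f : (conGen (sig T (cls T x0))).Quotient →* (conGen (sig T (cls T x0))).Quotient,
      Function.Surjective f → Function.Injective f)
    {h1 h2 : S} (hh1 : h1 ∈ cls T x0) (hh2 : h2 ∈ cls T x0) (heq : Θ h1 = Θ h2) : h1 = h2 := by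
  classical
  set H := cls T x0 with hH
  have hHT : ∀ y ∈ H, y ∉ T := fun y hy => not_mem_of_mem_cls T hx0 hy
  have hpre : ∀ y, Θ y ∈ H ↔ y ∈ H := by
    intro y
    constructor
    · intro hy
      have hyT : y ∉ T := fun h => hHT _ hy ((hT y).2 h)
      have h3 := hfix y hyT
      exact ⟨RR_trans T hy.1 (RR_symm T h3.1), LL_trans T hy.2 (LL_symm T h3.2)⟩
    · intro hy
      have h3 := hfix y (hHT _ hy)
      exact ⟨RR_trans T hy.1 h3.1, LL_trans T hy.2 h3.2⟩
  have hclsH : ∀ y ∈ H, H = cls T y := fun y hy => (cls_eq_iff T).2 hy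
  -- image under Θ of a stabilizing element is stabilizing
  have himg : ∀ t, (fun h => h * t) '' H = H → (fun h => h * Θ t) '' H = H := by
    intro t ht
    ext y
    constructor
    · rintro ⟨z, hz, rfl⟩
      obtain ⟨w, rfl⟩ := hΘ z
      show Θ w * Θ t ∈ H
      rw [← map_mul, hpre, ← ht]
      exact ⟨w, (hpre w).1 hz, rfl⟩
    · intro hy
      obtain ⟨w, rfl⟩ := hΘ y
      have hw := (hpre w).1 hy
      rw [← ht] at hw
      obtain ⟨v, hv, hvw⟩ := hw
      refine ⟨Θ v, (hpre v).2 hv, ?_⟩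
      show Θ v * Θ t = Θ w
      rw [← map_mul]
      exact congrArg Θ hvw
  have hmapS : ∀ u ∈ Stab T H, ext1 Θ u ∈ Stab T H := by
    intro u hu
    rcases mem_Stab T hu with rfl | ⟨t, ht, rfl, htH⟩
    · rw [map_one]; exact Submonoid.one_mem _
    · apply Submonoid.subset_closure
      right
      exact ⟨Θ t, (hT t).2 ht, rfl, himg t htH⟩
  let g : ↥(Stab T H) →* ↥(Stab T H) :=
    { toFun := fun u => ⟨ext1 Θ u.1, hmapS u.1 u.2⟩
      map_one' := Subtype.ext (map_one _)
      map_mul' := fun a b => Subtype.ext (map_mul _ _ _) }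
  have hg : ∀ a b : ↥(Stab T H), sig T H a b → sig T H (g a) (g b) := by
    intro a b hab h hh
    obtain ⟨w, rfl⟩ := hΘ h
    have hw := (hpre w).1 hh
    show ((Θ w : S) : WithOne S) * ext1 Θ a.1 = ((Θ w : S) : WithOne S) * ext1 Θ b.1
    rw [← ext1_coe, ← map_mul, ← map_mul, hab w hw]
  let f : (conGen (sig T H)).Quotient →* (conGen (sig T H)).Quotient :=
    Con.lift (conGen (sig T H)) ((Con.mk' _).comp g) (by
      intro a b hab
      have hab' := (conGen_sig T H a b).1 hab
      exact (Con.eq _).2 ((conGen_sig T H _ _).2 (hg a b hab')))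
  have hf : ∀ a : ↥(Stab T H), f (a : (conGen (sig T H)).Quotient) = ((g a : ↥(Stab T H)) : (conGen (sig T H)).Quotient) := by
    intro a; rfl
  have hsurj : Function.Surjective f := by
    intro q
    induction q using Con.induction_on with
    | H u =>
      obtain ⟨u, hu⟩ := u
      rcases mem_Stab T hu with rfl | ⟨t, ht, rfl, htH⟩
      · exact ⟨1, map_one f⟩
      · obtain ⟨s, rfl⟩ := hΘ t
        have hsT : s ∈ T := (hT s).1 ht
        have hx0s : x0 * s ∈ cls T x0 := by
          rw [← hpre, map_mul]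
          have : Θ x0 * Θ s ∈ (fun h => h * Θ s) '' H := ⟨Θ x0, (hpre x0).2 (cls_self T x0), rfl⟩
          rw [htH] at this
          exact this
        have hsH : (fun h => h * s) '' H = H := green T hsT hx0s rfl
        have hsS : (s : WithOne S) ∈ Stab T H :=
          Submonoid.subset_closure (Or.inr ⟨s, hsT, rfl, hsH⟩)
        refine ⟨((⟨(s : WithOne S), hsS⟩ : ↥(Stab T H)) : (conGen (sig T H)).Quotient), ?_⟩
        rw [hf]
        rfl
  have hinj := hop f hsurj
  -- conclusion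
  have hR : RR T h1 h2 := RR_trans T (RR_symm T hh1.1) hh2.1
  have hR' := hR
  rw [RR_iff] at hR'
  rcases hR' with h0 | ⟨⟨t, ht, h0⟩, _⟩
  · exact h0
  have h1t : h1 * t ∈ cls T h1 := by
    rw [← h0]
    rw [← hclsH h1 hh1]; exact hh2
  have htH : (fun h => h * t) '' H = H := green T ht h1t (hclsH h1 hh1)
  have htS : (t : WithOne S) ∈ Stab T H :=
    Submonoid.subset_closure (Or.inr ⟨t, ht, rfl, htH⟩)
  let u : ↥(Stab T H) := ⟨(t : WithOne S), htS⟩
  have hfix1 : Θ h1 * Θ t = Θ h1 := by rw [← map_mul, ← h0, heq]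
  have hfixall : ∀ h ∈ H, h * Θ t = h := by
    intro h hh
    have h3 : LL T (Θ h1) h := LL_trans T (LL_symm T ((hpre h1).2 hh1).2) hh.2
    rw [LL_iff] at h3
    rcases h3 with h3 | ⟨⟨v, hv, h3⟩, _⟩
    · rw [← h3]; exact hfix1
    · rw [h3, mul_assoc, hfix1]
  have h4 : f (u : (conGen (sig T H)).Quotient) = f ((1 : ↥(Stab T H)) : (conGen (sig T H)).Quotient) := by
    rw [hf, hf]
    apply (Con.eq _).2
    rw [conGen_sig]
    intro h hh
    show (h : WithOne S) * ext1 Θ (t : WithOne S) = (h : WithOne S) * ext1 Θ 1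
    rw [map_one, mul_one, ext1_coe, ← WithOne.coe_mul, hfixall h hh]
  have h5 := hinj h4
  have h6 := (conGen_sig T H _ _).1 ((Con.eq _).1 h5)
  have h7 := h6 h1 hh1
  have h8 : ((h1 : S) : WithOne S) * (t : WithOne S) = (h1 : WithOne S) * 1 := h7
  rw [mul_one, ← WithOne.coe_mul, WithOne.coe_inj] at h8
  rw [h0, h8]

theorem main
    (hfg : ∃ F : Finset S, Subsemigroup.closure (↑F : Set S) = T)
    (hfin : (Classes T).Finite)
    (hopT : ∀ f : T →ₙ* T, Function.Surjective f → Function.Injective f)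
    (hop : ∀ H : Set S, (∃ x : S, x ∉ T ∧ H = cls T x) →
      ∀ f : (conGen (sig T H)).Quotient →* (conGen (sig T H)).Quotient,
      Function.Surjective f → Function.Injective f)
    (φ : S →ₙ* S) (hφ : Function.Surjective φ) : Function.Injective φ := by
  obtain ⟨A, hA, hAgen⟩ := exists_gens T hfg hfin
  obtain ⟨m, hm, hTm⟩ := exists_iterate_preimage T A hA hAgen hfin φ hφ
  let θ := it φ m
  have hθ : Function.Surjective θ := it_surj φ hφ m
  obtain ⟨r, hr, hfix⟩ := exists_power_fix T hfin θ hθ hTm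
  let Θ := it θ r
  have hΘ : Function.Surjective Θ := it_surj θ hθ r
  have hΘT : ∀ x, (Θ x ∈ T ↔ x ∈ T) := by
    intro x
    show it θ r x ∈ T ↔ x ∈ T
    rw [it_apply]
    clear hfix hΘ Θ hr
    induction r with
    | zero => rfl
    | succ k ih =>
      rw [Function.iterate_succ_apply', ← ih]
      exact hTm _
  have hΘfix : ∀ x, x ∉ T → Θ x ∈ cls T x := by
    intro x hx
    show it θ r x ∈ cls T x
    rw [it_apply]; exact hfix x hx
  have hΘinj : Function.Injective Θ := by
    intro x y hxy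
    by_cases hx : x ∈ T
    · have hy : y ∈ T := by rw [← hΘT, ← hxy, hΘT]; exact hx
      let f : T →ₙ* T :=
        { toFun := fun x => ⟨Θ x.1, (hΘT _).2 x.2⟩
          map_mul' := fun a b => Subtype.ext (map_mul Θ _ _) }
      have hf : Function.Surjective f := by
        rintro ⟨t, ht⟩
        obtain ⟨s, rfl⟩ := hΘ t
        exact ⟨⟨s, (hΘT _).1 ht⟩, rfl⟩
      have := hopT f hf (a₁ := ⟨x, hx⟩) (a₂ := ⟨y, hy⟩) (Subtype.ext hxy)
      exact congrArg Subtype.val this
    · have hy : y ∉ T := by rw [← hΘT, ← hxy, hΘT]; exact hx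
      have h1 := hΘfix x hx
      have h2 := hΘfix y hy
      rw [← hxy] at h2
      have hyx : y ∈ cls T x :=
        ⟨RR_trans T h1.1 (RR_symm T h2.1), LL_trans T h1.2 (LL_symm T h2.2)⟩
      exact inj_on_class T Θ hΘ hΘT hΘfix hx (hop _ ⟨x, hx, rfl⟩) (cls_self T x) hyx hxy
  -- Θ = φ^(m r)
  have hΘφ : ∃ k, 0 < k ∧ ∀ x, Θ x = φ^[k] x := by
    refine ⟨m * r, Nat.mul_pos hm hr, ?_⟩
    intro x
    show it θ r x = _
    rw [it_apply]
    have : (θ : S → S) = φ^[m] := by funext z; exact it_apply φ m z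
    rw [this, ← Function.iterate_mul]
  obtain ⟨k, hk, hk'⟩ := hΘφ
  intro x y hxy
  apply hΘinj
  rw [hk', hk']
  obtain ⟨j, rfl⟩ : ∃ j, k = j + 1 := ⟨k - 1, by omega⟩
  rw [Function.iterate_succ_apply, Function.iterate_succ_apply, hxy]

end Pool.Agent.H499R3.Hopf
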